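import Pool.Agent.TF.Stmts

/-! Squad TF (MP_589914_co), row CNS. -/

set_option autoImplicit false

namespace Pool.Agent.TF.H69

/-- a point is determined by its two labels for one class -/
theorem eq_of_labs {G : Type} [AddCommGroup G] [Fintype G] [DecidableEq G] {n : ℕ} (F : Fam G n)
    (k : Fin n) (σ : Bool) {x y : G} (hx : x ∈ F.D k) (hy : y ∈ F.D k)
    (h1 : F.lab σ k x = F.lab σ k y) (h2 : F.lab (!σ) k x = F.lab (!σ) k y) : x = y := by
  rw [← F.sub k x hx, ← F.sub k y hy]
  cases σ <;> simp [Fam.lab] at h1 h2 <;> rw [h1, h2]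

/-- row CNS -/
theorem cns : CnsStmt := by
  intro G _ _ _ n F k j σ τ
  constructor
  · have h1 : (∑ x ∈ F.D k ∩ F.D j, F.cnt σ τ k j x * F.cnt σ (!τ) k j x) ≤
        Fintype.card G * ((F.D k).image (F.lab (!σ) k)).card := by
      have h2 : (∑ x ∈ F.D k ∩ F.D j, F.cnt σ τ k j x * F.cnt σ (!τ) k j x) =
          ((F.D k ∩ F.D j).sigma (fun x =>
            ((F.D k ∩ F.D j).filter (fun v => F.lab σ k v = F.lab σ k x ∧
              F.lab τ j v = F.lab τ j x)) ×ˢ
            ((F.D k ∩ F.D j).filter (fun v => F.lab σ k v = F.lab σ k x ∧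
              F.lab (!τ) j v = F.lab (!τ) j x)))).card := by
        rw [Finset.card_sigma]
        refine Finset.sum_congr rfl fun x _ => ?_
        rw [Finset.card_product]
        rfl
      rw [h2, ← Finset.card_univ, ← Finset.card_product]
      refine Finset.card_le_card_of_injOn (fun t => (t.2.1, F.lab (!σ) k t.2.2)) ?_ ?_
      · rintro ⟨x, y, z⟩ h
        simp only [Finset.coe_sigma, Set.mem_sigma_iff, Finset.mem_coe, Finset.mem_product,
          Finset.mem_filter, Finset.mem_inter] at h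
        simp only [Finset.mem_coe, Finset.mem_product, Finset.mem_univ, true_and,
          Finset.mem_image]
        exact ⟨z, h.2.2.1.1, rfl⟩
      · rintro ⟨x, y, z⟩ h ⟨x', y', z'⟩ h' he
        simp only [Finset.coe_sigma, Set.mem_sigma_iff, Finset.mem_coe, Finset.mem_product,
          Finset.mem_filter, Finset.mem_inter] at h h'
        simp only [Prod.mk.injEq] at he
        obtain ⟨he1, he2⟩ := he
        subst he1
        obtain ⟨⟨hx1, hx2⟩, ⟨⟨hy1, hy2⟩, hy3, hy4⟩, ⟨hz1, hz2⟩, hz3, hz4⟩ := h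
        obtain ⟨⟨hx1', hx2'⟩, ⟨⟨hy1', hy2'⟩, hy3', hy4'⟩, ⟨hz1', hz2'⟩, hz3', hz4'⟩ := h'
        have e1 : z = z' := eq_of_labs F k σ hz1 hz1'
          (by rw [hz3, hz3', ← hy3, ← hy3']) he2
        subst e1
        have e2 : x = x' := eq_of_labs F j τ hx2 hx2' (by rw [← hy4, ← hy4'])
          (by rw [← hz4, ← hz4'])
        subst e2
        rfl
    exact_mod_cast h1
  · have h1 : (∑ x ∈ F.D k ∩ F.D j, F.cnt σ τ k j x * F.cnt (!σ) τ k j x) ≤
        Fintype.card G * ((F.D j).image (F.lab (!τ) j)).card := by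
      have h2 : (∑ x ∈ F.D k ∩ F.D j, F.cnt σ τ k j x * F.cnt (!σ) τ k j x) =
          ((F.D k ∩ F.D j).sigma (fun x =>
            ((F.D k ∩ F.D j).filter (fun v => F.lab σ k v = F.lab σ k x ∧
              F.lab τ j v = F.lab τ j x)) ×ˢ
            ((F.D k ∩ F.D j).filter (fun v => F.lab (!σ) k v = F.lab (!σ) k x ∧
              F.lab τ j v = F.lab τ j x)))).card := by
        rw [Finset.card_sigma]
        refine Finset.sum_congr rfl fun x _ => ?_
        rw [Finset.card_product]
        rfl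
      rw [h2, ← Finset.card_univ, ← Finset.card_product]
      refine Finset.card_le_card_of_injOn (fun t => (t.2.1, F.lab (!τ) j t.2.2)) ?_ ?_
      · rintro ⟨x, y, z⟩ h
        simp only [Finset.coe_sigma, Set.mem_sigma_iff, Finset.mem_coe, Finset.mem_product,
          Finset.mem_filter, Finset.mem_inter] at h
        simp only [Finset.mem_coe, Finset.mem_product, Finset.mem_univ, true_and,
          Finset.mem_image]
        exact ⟨z, h.2.2.1.2, rfl⟩
      · rintro ⟨x, y, z⟩ h ⟨x', y', z'⟩ h' he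
        simp only [Finset.coe_sigma, Set.mem_sigma_iff, Finset.mem_coe, Finset.mem_product,
          Finset.mem_filter, Finset.mem_inter] at h h'
        simp only [Prod.mk.injEq] at he
        obtain ⟨he1, he2⟩ := he
        subst he1
        obtain ⟨⟨hx1, hx2⟩, ⟨⟨hy1, hy2⟩, hy3, hy4⟩, ⟨hz1, hz2⟩, hz3, hz4⟩ := h
        obtain ⟨⟨hx1', hx2'⟩, ⟨⟨hy1', hy2'⟩, hy3', hy4'⟩, ⟨hz1', hz2'⟩, hz3', hz4'⟩ := h'
        have e1 : z = z' := eq_of_labs F j τ hz2 hz2'
          (by rw [hz4, hz4', ← hy4, ← hy4']) he2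
        subst e1
        have e2 : x = x' := eq_of_labs F k σ hx1 hx1' (by rw [← hy3, ← hy3'])
          (by rw [← hz3, ← hz3'])
        subst e2
        rfl
    exact_mod_cast h1

end Pool.Agent.TF.H69
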