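import Pool.Agent.TF.Stmts

/-! Squad TF (MP_589914_co), row PLF. -/

set_option autoImplicit false

namespace Pool.Agent.TF.H69

/-- at most six unequal pairs among five bits -/
theorem plf_count : ∀ ε : Fin 5 → Bool,
    (∑ p : Fin 5 × Fin 5, if p.1 < p.2 ∧ ε p.1 ≠ ε p.2 then 1 else 0) +
      (if ε = (fun _ => true) then 6 else 0) + (if ε = (fun _ => false) then 6 else 0) ≤ 6 := by
  decide +kernel

/-- row PLF -/
theorem plf : PlfStmt := by
  intro μ L B hμ hL hB
  have h1 : (10 : ℝ) * B ≤ ∑ p : Fin 5 × Fin 5, if p.1 < p.2 then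
      (∑ ε, if ε p.1 ≠ ε p.2 then μ ε else 0) else 0 := by
    have h2 : ∀ p : Fin 5 × Fin 5, (if p.1 < p.2 then B else 0) ≤ if p.1 < p.2 then
      (∑ ε, if ε p.1 ≠ ε p.2 then μ ε else 0) else 0 := by
      intro p
      split_ifs with h
      · exact hB _ _ h.ne
      · exact le_refl _
    refine le_trans (le_of_eq ?_) (Finset.sum_le_sum fun p _ => h2 p)
    rw [← Finset.sum_filter, Finset.sum_const]
    have h3 : (Finset.univ.filter (fun p : Fin 5 × Fin 5 => p.1 < p.2)).card = 10 := by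
      decide +kernel
    rw [h3, nsmul_eq_mul]
    norm_num
  have h4 : (∑ p : Fin 5 × Fin 5, if p.1 < p.2 then
      (∑ ε, if ε p.1 ≠ ε p.2 then μ ε else 0) else 0) =
      ∑ ε, μ ε * ((∑ p : Fin 5 × Fin 5, if p.1 < p.2 ∧ ε p.1 ≠ ε p.2 then 1 else 0 : ℕ) : ℝ) := by
    have h5 : ∀ p : Fin 5 × Fin 5, (if p.1 < p.2 then
        (∑ ε, if ε p.1 ≠ ε p.2 then μ ε else 0) else 0) =
        ∑ ε : Fin 5 → Bool, if p.1 < p.2 ∧ ε p.1 ≠ ε p.2 then μ ε else 0 := by
      intro p
      by_cases h : p.1 < p.2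
      · simp [h]
      · simp [h]
    rw [Finset.sum_congr rfl fun p _ => h5 p, Finset.sum_comm]
    refine Finset.sum_congr rfl fun ε _ => ?_
    rw [Nat.cast_sum, Finset.mul_sum]
    refine Finset.sum_congr rfl fun p _ => ?_
    split_ifs <;> simp
  have h6 : (∑ ε, μ ε * ((∑ p : Fin 5 × Fin 5, if p.1 < p.2 ∧ ε p.1 ≠ ε p.2 then 1 else 0 : ℕ) : ℝ))
      ≤ ∑ ε, (6 * μ ε - (if ε = (fun _ => true) then 6 * μ ε else 0) -
        (if ε = (fun _ => false) then 6 * μ ε else 0)) := by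
    refine Finset.sum_le_sum fun ε _ => ?_
    have h7 := plf_count ε
    have h8 : ((∑ p : Fin 5 × Fin 5, if p.1 < p.2 ∧ ε p.1 ≠ ε p.2 then 1 else 0 : ℕ) : ℝ) +
      (if ε = (fun _ => true) then 6 else 0) + (if ε = (fun _ => false) then 6 else 0) ≤ 6 := by
      exact_mod_cast h7
    have h9 := mul_le_mul_of_nonneg_left h8 (hμ ε)
    have e1 : (if ε = (fun _ => true) then 6 * μ ε else 0) =
      μ ε * (if ε = (fun _ => true) then 6 else 0) := by split_ifs <;> ring
    have e2 : (if ε = (fun _ => false) then 6 * μ ε else 0) =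
      μ ε * (if ε = (fun _ => false) then 6 else 0) := by split_ifs <;> ring
    rw [e1, e2]
    linarith
  rw [Finset.sum_sub_distrib, Finset.sum_sub_distrib, ← Finset.mul_sum, Finset.sum_ite_eq',
    Finset.sum_ite_eq', if_pos (Finset.mem_univ _), if_pos (Finset.mem_univ _)] at h6
  rw [h4] at h1
  linarith

end Pool.Agent.TF.H69
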