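import Pool.Agent.TF.Stmts

/-! Squad TF (MP_589914_co), row PLN. -/

set_option autoImplicit false

namespace Pool.Agent.TF.H69

/-- row PLN -/
theorem pln : PlnStmt := by
  intro R μ A A' B δ hR hμ h1 h2 h3
  obtain ⟨f, hf⟩ : ∃ f : (Fin R → Bool) → ℝ, f = fun ε => ∑ i, if ε i = true then 1 else 0 :=
    ⟨_, rfl⟩
  have hRpos : (0 : ℝ) < (R : ℝ) + 1 := by positivity
  have hRR : (1 : ℝ) ≤ R := by exact_mod_cast hR
  -- first moment
  have m1 : ∑ ε, μ ε * f ε = ∑ i, ∑ ε, if ε i = true then μ ε else 0 := by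
    rw [Finset.sum_comm]
    refine Finset.sum_congr rfl fun ε _ => ?_
    rw [hf]
    simp only
    rw [Finset.mul_sum]
    refine Finset.sum_congr rfl fun i _ => ?_
    split_ifs <;> ring
  -- second moment
  have m2 : ∑ ε, μ ε * f ε ^ 2 = ∑ i, ∑ j, ∑ ε, if ε i = true ∧ ε j = true then μ ε else 0 := by
    have e1 : ∀ ε, μ ε * f ε ^ 2 = ∑ i, ∑ j, if ε i = true ∧ ε j = true then μ ε else 0 := by
      intro ε
      rw [hf]
      simp only
      rw [sq, Finset.sum_mul_sum, Finset.mul_sum]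
      refine Finset.sum_congr rfl fun i _ => ?_
      rw [Finset.mul_sum]
      refine Finset.sum_congr rfl fun j _ => ?_
      by_cases hi : ε i = true <;> by_cases hj : ε j = true <;> simp [hi, hj]
    rw [Finset.sum_congr rfl fun ε _ => e1 ε, Finset.sum_comm]
    refine Finset.sum_congr rfl fun i _ => ?_
    rw [Finset.sum_comm]
  have m1lo : (R : ℝ) * (A - δ) ≤ ∑ ε, μ ε * f ε := by
    rw [m1]
    calc (R : ℝ) * (A - δ) = ∑ _i : Fin R, (A - δ) := by
          rw [Finset.sum_const, Finset.card_univ, Fintype.card_fin, nsmul_eq_mul]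
      _ ≤ _ := Finset.sum_le_sum fun i _ => h1 i
  have m2hi : ∑ ε, μ ε * f ε ^ 2 ≤ R * A' + R * (R - 1) * B := by
    rw [m2]
    have e1 : ∀ i : Fin R, (∑ j, ∑ ε, if ε i = true ∧ ε j = true then μ ε else 0) ≤
        A' + (R - 1) * B := by
      intro i
      rw [← Finset.add_sum_erase Finset.univ _ (Finset.mem_univ i)]
      refine add_le_add ?_ ?_
      · simp only [and_self]
        exact h2 i
      · calc (∑ j ∈ Finset.univ.erase i, ∑ ε, if ε i = true ∧ ε j = true then μ ε else 0)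
            ≤ ∑ _j ∈ Finset.univ.erase i, B :=
              Finset.sum_le_sum fun j hj => h3 i j (Finset.ne_of_mem_erase hj).symm
          _ = (R - 1) * B := by
              rw [Finset.sum_const, Finset.card_erase_of_mem (Finset.mem_univ i),
                Finset.card_univ, Fintype.card_fin, nsmul_eq_mul, Nat.cast_sub hR, Nat.cast_one]
    calc (∑ i, ∑ j, ∑ ε, if ε i = true ∧ ε j = true then μ ε else 0)
        ≤ ∑ _i : Fin R, (A' + (R - 1) * B) := Finset.sum_le_sum fun i _ => e1 i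
      _ = R * A' + R * (R - 1) * B := by
          simp
          ring
  -- pointwise
  have pw : ∀ ε, μ ε * (((R : ℝ) + 1) * f ε - f ε ^ 2) ≤
      ((R : ℝ) + 1) ^ 2 / 4 * (if ε = (fun _ => false) then 0 else μ ε) := by
    intro ε
    split_ifs with h
    · have : f ε = 0 := by
        rw [hf, h]
        simp
      rw [this]
      simp
    · have e1 : ((R : ℝ) + 1) * f ε - f ε ^ 2 ≤ ((R : ℝ) + 1) ^ 2 / 4 := by
        nlinarith [sq_nonneg (((R : ℝ) + 1) / 2 - f ε)]
      calc μ ε * (((R : ℝ) + 1) * f ε - f ε ^ 2) ≤ μ ε * (((R : ℝ) + 1) ^ 2 / 4) :=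
            mul_le_mul_of_nonneg_left e1 (hμ ε)
        _ = _ := by ring
  have hsum : ((R : ℝ) + 1) * (∑ ε, μ ε * f ε) - ∑ ε, μ ε * f ε ^ 2 ≤
      ((R : ℝ) + 1) ^ 2 / 4 * ∑ ε, (if ε = (fun _ => false) then 0 else μ ε) := by
    rw [Finset.mul_sum, Finset.mul_sum, ← Finset.sum_sub_distrib]
    refine Finset.sum_le_sum fun ε _ => ?_
    have := pw ε
    linarith
  rw [div_le_iff₀ (by positivity)]
  have h5 : ((R : ℝ) + 1) * (R * (A - δ)) ≤ ((R : ℝ) + 1) * ∑ ε, μ ε * f ε :=
    mul_le_mul_of_nonneg_left m1lo hRpos.le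
  linarith

end Pool.Agent.TF.H69
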